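import Pool.Agent.P.MP_d483fb_an.U.Arith

/-! Transvections of a left vector space over a division ring. -/

set_option autoImplicit false
set_option linter.unusedSectionVars false

namespace Pool.Agent.P.MP_d483fb_an.L

open U (Nrm Full Scal Ar mul_apply' one_apply' apply_inv_apply' inv_apply_apply')

noncomputable section

variable {D V : Type} [DivisionRing D] [StarRing D] [AddCommGroup V] [Module D V]

open Classical in
/-- The transvection `x ↦ x + φ x • v` (the identity if `φ v ≠ 0`). -/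
def tv (φ : V →ₗ[D] D) (v : V) : V ≃ₗ[D] V :=
  if h : φ v = 0 then
    LinearEquiv.ofLinearMap (LinearMap.id + φ.smulRight v) (LinearMap.id - φ.smulRight v)
      (LinearMap.ext fun x => by simp [h]) (LinearMap.ext fun x => by simp [h])
  else 1

theorem tv_apply {φ : V →ₗ[D] D} {v : V} (h : φ v = 0) (x : V) : tv φ v x = x + φ x • v := by
  rw [tv, dif_pos h, LinearEquiv.coe_ofLinearMap]
  rfl

theorem tv_of_ne {φ : V →ₗ[D] D} {v : V} (h : φ v ≠ 0) : tv φ v = 1 := dif_neg h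

theorem tv_add_right {φ : V →ₗ[D] D} {v w : V} (hv : φ v = 0) (hw : φ w = 0) :
    tv φ (v + w) = tv φ v * tv φ w := by
  ext x
  rw [mul_apply', tv_apply hv, tv_apply hw, tv_apply (by rw [map_add, hv, hw, add_zero]), map_add,
    map_smul, hw, smul_zero, add_zero, smul_add]
  abel

theorem tv_add_left {φ ψ : V →ₗ[D] D} {v : V} (h1 : φ v = 0) (h2 : ψ v = 0) :
    tv (φ + ψ) v = tv φ v * tv ψ v := by
  ext x
  rw [mul_apply', tv_apply h1, tv_apply h2,
    tv_apply (by rw [LinearMap.add_apply, h1, h2, add_zero]), map_add, map_smul, h1, smul_zero,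
    add_zero, LinearMap.add_apply, add_smul]
  abel

theorem tv_zero_right (φ : V →ₗ[D] D) : tv φ 0 = 1 := by
  ext x
  rw [tv_apply (map_zero φ), smul_zero, add_zero, one_apply']

theorem tv_zero_left (v : V) : tv (0 : V →ₗ[D] D) v = 1 := by
  ext x
  rw [tv_apply rfl, LinearMap.zero_apply, zero_smul, add_zero, one_apply']

theorem tv_neg_right {φ : V →ₗ[D] D} {v : V} (h : φ v = 0) : tv φ (-v) = (tv φ v)⁻¹ := by
  rw [eq_inv_iff_mul_eq_one, ← tv_add_right (by rw [map_neg, h, neg_zero]) h, neg_add_cancel,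
    tv_zero_right]

theorem tv_sub_right {φ : V →ₗ[D] D} {v w : V} (hv : φ v = 0) (hw : φ w = 0) :
    tv φ (v - w) = tv φ v * (tv φ w)⁻¹ := by
  rw [sub_eq_add_neg, tv_add_right hv (by rw [map_neg, hw, neg_zero]), tv_neg_right hw]

theorem tv_sub_left {φ ψ : V →ₗ[D] D} {v : V} (h1 : φ v = 0) (h2 : ψ v = 0) :
    tv (φ - ψ) v = tv φ v * (tv ψ v)⁻¹ := by
  rw [eq_mul_inv_iff_mul_eq, ← tv_add_left (by rw [LinearMap.sub_apply, h1, h2, sub_zero]) h2,
    sub_add_cancel]

theorem tv_pow {φ : V →ₗ[D] D} {v : V} (h : φ v = 0) (k : ℕ) :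
    tv φ v ^ k = tv φ ((k : D) • v) := by
  induction k with
  | zero => simp [tv_zero_right]
  | succ k ih =>
    rw [pow_succ, ih, ← tv_add_right (by rw [map_smul, h, smul_zero]) h, Nat.cast_succ, add_smul,
      one_smul]

/-- `φ.smulRight a` is `x ↦ φ x * a`. -/
theorem tv_smulRight (φ : V →ₗ[D] D) (a : D) {v : V} (h : φ v = 0) :
    tv (φ.smulRight a) v = tv φ (a • v) := by
  ext x
  rw [tv_apply (by rw [LinearMap.smulRight_apply, h, zero_smul]),
    tv_apply (by rw [map_smul, h, smul_zero]), LinearMap.smulRight_apply, smul_eq_mul, mul_smul]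

theorem tv_conj (g : V ≃ₗ[D] V) {φ : V →ₗ[D] D} {v : V} (h : φ v = 0) :
    g * tv φ v * g⁻¹ = tv (φ ∘ₗ (g⁻¹ : V ≃ₗ[D] V).toLinearMap) (g v) := by
  ext x
  rw [mul_apply', mul_apply', tv_apply h, tv_apply (by
    change φ (g⁻¹ (g v)) = 0
    rw [inv_apply_apply', h]), map_add, map_smul, apply_inv_apply']
  rfl

theorem tv_fix {φ : V →ₗ[D] D} {x : V} (h : φ x = 0) (v : V) : tv φ v x = x := by
  by_cases hv : φ v = 0
  · rw [tv_apply hv, h, zero_smul, add_zero]
  · rw [tv_of_ne hv, one_apply']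

/-- The stabiliser of the additive subgroup `Λ`. -/
abbrev GS (D : Type) [DivisionRing D] [Module D V] (Λ : AddSubgroup V) : Subgroup (V ≃ₗ[D] V) :=
  U.UL (0 : U.Form D V) Λ

theorem mem_GS {Λ : AddSubgroup V} {g : V ≃ₗ[D] V} : g ∈ GS D Λ ↔ ∀ x, g x ∈ Λ ↔ x ∈ Λ :=
  ⟨fun h => h.2, fun h => ⟨fun _ _ => rfl, h⟩⟩

/-- `K` contains a power of each transvection. -/
def Ample (K : Subgroup (V ≃ₗ[D] V)) : Prop :=
  ∀ (φ : V →ₗ[D] D) (v : V), φ v = 0 → ∃ m : ℕ, 0 < m ∧ tv φ ((m : D) • v) ∈ K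

/-- The lattice spanned by a basis over `O`. -/
def lat {n : ℕ} (O : Subring D) (b : Module.Basis (Fin n) D V) : AddSubgroup V where
  carrier := {x | ∀ i, b.coord i x ∈ O}
  zero_mem' := fun i => by rw [map_zero]; exact O.zero_mem
  add_mem' := fun ha hb i => by rw [map_add]; exact O.add_mem (ha i) (hb i)
  neg_mem' := fun ha i => by rw [map_neg]; exact O.neg_mem (ha i)

/-- `K` contains all transvections of level `m`. -/
def Lvl {n : ℕ} (O : Subring D) (b : Module.Basis (Fin n) D V) (m : ℕ) (K : Subgroup (V ≃ₗ[D] V)) :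
    Prop :=
  ∀ φ : V →ₗ[D] D, (∀ i, φ (b i) ∈ O) → ∀ v ∈ lat O b, φ v = 0 → tv φ ((m : D) • v) ∈ K

/-- The group generated by the elementary transvections fixing the basis vectors indexed by `s`. -/
def El {n : ℕ} (O : Subring D) (b : Module.Basis (Fin n) D V) (s : Set (Fin n)) :
    Subgroup (V ≃ₗ[D] V) :=
  Subgroup.closure {g | ∃ i j, ∃ a ∈ O, i ∉ s ∧ i ≠ j ∧ g = tv (b.coord i) (a • b j)}

variable {n : ℕ} {O : Subring D} {b : Module.Basis (Fin n) D V}

theorem mem_lat {x : V} : x ∈ lat O b ↔ ∀ i, b.coord i x ∈ O := Iff.rfl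

theorem coord_self (b : Module.Basis (Fin n) D V) (i : Fin n) : b.coord i (b i) = 1 := by simp

theorem coord_ne (b : Module.Basis (Fin n) D V) {i j : Fin n} (h : i ≠ j) : b.coord i (b j) = 0 := by
  simp [Finsupp.single_apply, h.symm]

theorem sum_coord (b : Module.Basis (Fin n) D V) (x : V) : ∑ i, b.coord i x • b i = x :=
  b.sum_repr x

theorem basis_mem (i : Fin n) : b i ∈ lat O b := fun j => by
  by_cases h : j = i
  · rw [h, coord_self]; exact O.one_mem
  · rw [coord_ne b h]; exact O.zero_mem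

theorem smul_mem {a : D} (ha : a ∈ O) {x : V} (hx : x ∈ lat O b) : a • x ∈ lat O b := fun i => by
  rw [map_smul]
  exact O.mul_mem ha (hx i)

theorem dual_mem {φ : V →ₗ[D] D} (hφ : ∀ i, φ (b i) ∈ O) {x : V} (hx : x ∈ lat O b) : φ x ∈ O := by
  rw [← sum_coord b x, map_sum]
  exact O.sum_mem fun i _ => by rw [map_smul]; exact O.mul_mem (hx i) (hφ i)

theorem tv_mem_GS {φ : V →ₗ[D] D} (hφ : ∀ i, φ (b i) ∈ O) {v : V} (hv : v ∈ lat O b) :
    tv φ v ∈ GS D (lat O b) := by
  by_cases h : φ v = 0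
  · have key : ∀ w ∈ lat O b, φ w = 0 → ∀ x ∈ lat O b, tv φ w x ∈ lat O b := fun w hw h0 x hx => by
      rw [tv_apply h0]
      exact (lat O b).add_mem hx (smul_mem (dual_mem hφ hx) hw)
    refine mem_GS.2 fun x => ⟨fun hx => ?_, key v hv h x⟩
    have := key (-v) ((lat O b).neg_mem hv) (by rw [map_neg, h, neg_zero]) _ hx
    rwa [tv_neg_right h, inv_apply_apply'] at this
  · rw [tv_of_ne h]
    exact (GS D _).one_mem

theorem El_le_GS (s : Set (Fin n)) : El O b s ≤ GS D (lat O b) := by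
  rw [El, Subgroup.closure_le]
  rintro _ ⟨i, j, a, ha, -, -, rfl⟩
  exact tv_mem_GS (fun k => basis_mem k i) (smul_mem ha (basis_mem j))

theorem El_mono {s t : Set (Fin n)} (h : s ⊆ t) : El O b t ≤ El O b s :=
  Subgroup.closure_mono fun _ ⟨i, j, a, ha, hi, hij, e⟩ => ⟨i, j, a, ha, fun h' => hi (h h'), hij, e⟩

theorem El_fix {s : Set (Fin n)} {g : V ≃ₗ[D] V} (hg : g ∈ El O b s) {p : Fin n} (hp : p ∈ s) :
    g (b p) = b p := by
  induction hg using Subgroup.closure_induction with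
  | mem g hg =>
    obtain ⟨i, j, a, -, hi, -, rfl⟩ := hg
    exact tv_fix (coord_ne b fun e : i = p => hi (e ▸ hp)) _
  | one => rfl
  | mul g g' _ _ h1 h2 => rw [mul_apply', h2, h1]
  | inv g _ h1 =>
    conv_lhs => rw [← h1]
    exact inv_apply_apply' g _

/-- A linear form vanishing on a subspace with prescribed value outside. -/
theorem exists_form {W : Submodule D V} {y : V} (hy : y ∉ W) (c : D) :
    ∃ φ : V →ₗ[D] D, (∀ w ∈ W, φ w = 0) ∧ φ y = c := by
  obtain ⟨φ, h1, h2⟩ := W.exists_le_ker_of_notMem hy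
  refine ⟨φ.smulRight ((φ y)⁻¹ * c), fun w hw => ?_, ?_⟩
  · rw [LinearMap.smulRight_apply, LinearMap.mem_ker.1 (h2 hw), zero_smul]
  · rw [LinearMap.smulRight_apply, smul_eq_mul, ← mul_assoc, mul_inv_cancel₀ h1, one_mul]

end

end Pool.Agent.P.MP_d483fb_an.L
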