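import Pool.Agent.P.MP_d483fb_an.L.Base

set_option autoImplicit false
set_option linter.unusedSectionVars false

namespace Pool.Agent.P.MP_d483fb_an.L

open U (Nrm Full Scal Ar mul_apply' one_apply' apply_inv_apply' inv_apply_apply')

variable {D V : Type} [DivisionRing D] [StarRing D] [CharZero D] [AddCommGroup V] [Module D V]
  [Module.Finite D V]

theorem exists_not_mem_span (h3 : 3 ≤ Module.finrank D V) (v w : V) :
    ∃ x, x ∉ Submodule.span D {v, w} := by
  classical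
  by_contra hc
  push Not at hc
  have h1 : Submodule.span D ({v, w} : Set V) = ⊤ := eq_top_iff.2 fun x _ => hc x
  have h2 := finrank_span_finset_le_card (R := D) ({v, w} : Finset V)
  rw [Set.finrank, Finset.coe_pair, h1, finrank_top] at h2
  have := Finset.card_le_two (a := v) (b := w)
  omega

/-- A nonzero linear form vanishing on two given vectors. -/
theorem exists_form₂ (h3 : 3 ≤ Module.finrank D V) (v w : V) :
    ∃ (θ : V →ₗ[D] D) (x : V), θ x = 1 ∧ θ v = 0 ∧ θ w = 0 := by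
  obtain ⟨x, hx⟩ := exists_not_mem_span h3 v w
  obtain ⟨θ, h1, h2⟩ := exists_form hx (1 : D)
  exact ⟨θ, x, h2, h1 v (Submodule.subset_span (by simp)), h1 w (Submodule.subset_span (by simp))⟩

/-- The kernel of a linear form is not contained in a line. -/
theorem exists_ker_not_mem (h3 : 3 ≤ Module.finrank D V) (θ : V →ₗ[D] D) (u : V) :
    ∃ w, θ w = 0 ∧ w ∉ Submodule.span D {u} := by
  obtain ⟨x₀, hx₀⟩ : ∃ x₀, ∀ x, ∃ c : D, θ (x - c • x₀) = 0 := by
    by_cases h : ∀ x, θ x = 0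
    · exact ⟨0, fun x => ⟨0, h _⟩⟩
    · push Not at h
      obtain ⟨x₀, h⟩ := h
      refine ⟨x₀, fun x => ⟨θ x * (θ x₀)⁻¹, ?_⟩⟩
      rw [map_sub, map_smul, smul_eq_mul, mul_assoc, inv_mul_cancel₀ h, mul_one, sub_self]
  obtain ⟨x, hx⟩ := exists_not_mem_span h3 u x₀
  obtain ⟨c, hc⟩ := hx₀ x
  refine ⟨_, hc, fun h => hx ?_⟩
  rw [← sub_add_cancel x (c • x₀)]
  exact Submodule.add_mem _ (Submodule.span_mono (by simp) h)
    (Submodule.smul_mem _ _ (Submodule.subset_span (by simp)))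

/-- Two linear forms have a common nonzero zero. -/
theorem exists_ker₂ (h3 : 3 ≤ Module.finrank D V) (θ ψ : V →ₗ[D] D) :
    ∃ w, w ≠ 0 ∧ θ w = 0 ∧ ψ w = 0 := by
  obtain ⟨u, hu, hu'⟩ := exists_ker_not_mem h3 θ 0
  have hu0 : u ≠ 0 := fun h => hu' (by rw [h]; exact Submodule.zero_mem _)
  by_cases h : ψ u = 0
  · exact ⟨u, hu0, hu, h⟩
  · obtain ⟨w, hw, hw'⟩ := exists_ker_not_mem h3 θ u
    refine ⟨w - (ψ w * (ψ u)⁻¹) • u, fun h0 => hw' ?_, ?_, ?_⟩
    · rw [sub_eq_zero.1 h0]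
      exact Submodule.smul_mem _ _ (Submodule.mem_span_singleton_self u)
    · rw [map_sub, map_smul, hw, hu, smul_zero, sub_zero]
    · rw [map_sub, map_smul, smul_eq_mul, mul_assoc, inv_mul_cancel₀ h, mul_one, sub_self]

theorem scal_of_lines (h3 : 3 ≤ Module.finrank D V) {d : V ≃ₗ[D] V}
    (hd : ∀ v, d v ∈ Submodule.span D {v}) : Scal d := by
  have key : ∀ (v w : V) (a a' : D), v ≠ 0 → w ∉ Submodule.span D {v} → d v = a • v → d w = a' • w →
      ∀ c : D, c * a' = a * c := by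
    intro v w a a' hv hw h1 h2 c
    obtain ⟨a'', h3⟩ := Submodule.mem_span_singleton.1 (hd (v + c • w))
    have hl : ∀ s t : D, s • v + t • w = 0 → s = 0 ∧ t = 0 := fun s t h => by
      have ht : t = 0 := by
        by_contra ht
        apply hw
        rw [← inv_smul_smul₀ ht w, ← neg_eq_of_add_eq_zero_right h]
        exact Submodule.smul_mem _ _ (Submodule.neg_mem _
          (Submodule.smul_mem _ _ (Submodule.mem_span_singleton_self v)))
      rw [ht, zero_smul, add_zero] at h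
      exact ⟨(smul_eq_zero.1 h).resolve_right hv, ht⟩
    rw [map_add, map_smul, h1, h2, smul_add, smul_smul, smul_smul] at h3
    obtain ⟨e1, e2⟩ := hl (a'' - a) (a'' * c - c * a') (by
      rw [sub_smul, sub_smul, sub_add_sub_comm, h3, sub_self])
    rw [← sub_eq_zero.1 e1, sub_eq_zero.1 e2]
  obtain ⟨v, hv⟩ := exists_not_mem_span h3 0 0
  have hv0 : v ≠ 0 := fun h => hv (by rw [h]; exact Submodule.zero_mem _)
  obtain ⟨w, hw⟩ := exists_not_mem_span h3 v v
  rw [Set.pair_eq_singleton] at hw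
  obtain ⟨a, ha⟩ := Submodule.mem_span_singleton.1 (hd v)
  obtain ⟨a', ha'⟩ := Submodule.mem_span_singleton.1 (hd w)
  have h1 := key v w a a' hv0 hw ha.symm ha'.symm
  have h2 : a' = a := by simpa using h1 1
  subst h2
  refine ⟨a', h1, fun x => ?_⟩
  by_cases hx : x ∈ Submodule.span D {v}
  · obtain ⟨c, rfl⟩ := Submodule.mem_span_singleton.1 hx
    rw [map_smul, ← ha, smul_smul, smul_smul, h1]
  · obtain ⟨a'', ha''⟩ := Submodule.mem_span_singleton.1 (hd x)
    have := key v x a' a'' hv0 hx ha.symm ha''.symm 1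
    rw [one_mul, mul_one] at this
    rw [← ha'', this]

theorem comm_mem {Γ K : Subgroup (V ≃ₗ[D] V)} (hK : Nrm Γ K) {c γ : V ≃ₗ[D] V} (hc : c ∈ K)
    (hγ : γ ∈ Γ) : c * γ * c⁻¹ * γ⁻¹ ∈ K := by
  have := K.mul_mem hc (hK γ hγ _ (K.inv_mem hc))
  simpa only [mul_assoc] using this

/-- A normalised subgroup with a nonscalar element contains a transvection. -/
theorem exists_tv_mem (h3 : 3 ≤ Module.finrank D V) {Γ K : Subgroup (V ≃ₗ[D] V)} (hΓ : Ample Γ)
    (hK : Nrm Γ K) {d : V ≃ₗ[D] V} (hd : d ∈ K) (h1 : ¬Scal d) :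
    ∃ (θ : V →ₗ[D] D) (x u : V), θ x = 1 ∧ u ≠ 0 ∧ θ u = 0 ∧ tv θ u ∈ K := by
  obtain ⟨v, hv⟩ : ∃ v, d v ∉ Submodule.span D {v} := by
    by_contra h
    push Not at h
    exact h1 (scal_of_lines h3 h)
  have hv0 : v ≠ 0 := fun h => hv (by rw [h, map_zero]; exact Submodule.zero_mem _)
  obtain ⟨φ, y, hy, hφ, -⟩ := exists_form₂ h3 v v
  obtain ⟨m, hm, hγ⟩ := hΓ φ v hφ
  have hm' : (m : D) ≠ 0 := Nat.cast_ne_zero.2 hm.ne'
  have hφ' : φ ((m : D) • v) = 0 := by rw [map_smul, hφ, smul_zero]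
  have hc := comm_mem hK hd hγ
  set c := d * tv φ ((m : D) • v) * d⁻¹ * (tv φ ((m : D) • v))⁻¹ with hcd
  have hca : ∀ x, ∃ s : D, c x = x - (φ x * m) • v + s • d v := fun x => by
    refine ⟨φ (d⁻¹ (x - (φ x * m) • v)) * m, ?_⟩
    rw [hcd, ← tv_neg_right hφ', mul_apply', mul_apply', mul_apply',
      tv_apply hφ', tv_apply (by rw [map_neg, hφ', neg_zero]), map_add d, map_smul d, map_smul d,
      apply_inv_apply', smul_neg, smul_smul, smul_smul, ← sub_eq_add_neg]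
  obtain ⟨θ, x₀, hx₀, hθ, hθ'⟩ := exists_form₂ h3 v (d v)
  have hθc : ∀ x, θ (c x) = θ x := fun x => by
    obtain ⟨s, hs⟩ := hca x
    rw [hs, map_add, map_sub, map_smul, map_smul, hθ, hθ', smul_zero, smul_zero, sub_zero, add_zero]
  by_cases h : ∀ w, θ w = 0 → c w = w
  · have hu : θ (c x₀ - x₀) = 0 := by rw [map_sub, hθc, sub_self]
    have e : c = tv θ (c x₀ - x₀) := by
      ext x
      have := h (x - θ x • x₀) (by rw [map_sub, map_smul, hx₀, smul_eq_mul, mul_one, sub_self])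
      rw [map_sub, map_smul, sub_eq_iff_eq_add] at this
      rw [tv_apply hu, this, smul_sub]
      abel
    refine ⟨θ, x₀, _, hx₀, fun h0 => hv ?_, hu, e ▸ hc⟩
    obtain ⟨s, hs⟩ := hca y
    rw [e, h0, tv_zero_right, one_apply', hy, one_mul, sub_add, eq_comm, sub_eq_self,
      sub_eq_zero] at hs
    have hs0 : s ≠ 0 := fun h0 => smul_ne_zero hm' hv0 (by rw [hs, h0, zero_smul])
    rw [← inv_smul_smul₀ hs0 (d v), ← hs]
    exact Submodule.smul_mem _ _ (Submodule.smul_mem _ _ (Submodule.mem_span_singleton_self v))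
  · push Not at h
    obtain ⟨w, hw, hcw⟩ := h
    obtain ⟨k, hk, hγ'⟩ := hΓ θ w hw
    have hw' : θ ((k : D) • w) = 0 := by rw [map_smul, hw, smul_zero]
    have h2 := comm_mem hK hc hγ'
    have e : θ ∘ₗ (c⁻¹ : V ≃ₗ[D] V).toLinearMap = θ := LinearMap.ext fun x => by
      change θ (c⁻¹ x) = θ x
      rw [← hθc, apply_inv_apply']
    rw [tv_conj c hw', e, ← tv_sub_right (by rw [hθc, hw']) hw', map_smul, ← smul_sub] at h2
    exact ⟨θ, x₀, _, hx₀, smul_ne_zero (Nat.cast_ne_zero.2 hk.ne') (sub_ne_zero.2 hcw),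
      by rw [map_smul, map_sub, hθc, sub_self, smul_zero], h2⟩

theorem spread_same (h3 : 3 ≤ Module.finrank D V) {Γ K : Subgroup (V ≃ₗ[D] V)} (hΓ : Ample Γ)
    (hK : Nrm Γ K) {θ : V →ₗ[D] D} {u : V} (hu0 : u ≠ 0) (hu : θ u = 0) (h : tv θ u ∈ K) (w : V)
    (hw : θ w = 0) : ∃ m : ℕ, 0 < m ∧ tv θ ((m : D) • w) ∈ K := by
  have key : ∀ w, θ w = 0 → w ∉ Submodule.span D {u} →
      ∃ m : ℕ, 0 < m ∧ tv θ ((m : D) • w) ∈ K := by
    intro w hw hw'
    have hu' : u ∉ Submodule.span D {w} := fun h' => by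
      obtain ⟨c, rfl⟩ := Submodule.mem_span_singleton.1 h'
      have hc : c ≠ 0 := fun h0 => hu0 (by rw [h0, zero_smul])
      exact hw' (Submodule.mem_span_singleton.2 ⟨c⁻¹, inv_smul_smul₀ hc w⟩)
    obtain ⟨ψ, h1, h2⟩ := exists_form hu' (1 : D)
    have h4 := h1 w (Submodule.mem_span_singleton_self w)
    obtain ⟨k, hk, hγ⟩ := hΓ ψ w h4
    have h5 : ψ ((k : D) • w) = 0 := by rw [map_smul, h4, smul_zero]
    have h6 : θ ((k : D) • w) = 0 := by rw [map_smul, hw, smul_zero]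
    have h7 := hK _ hγ _ h
    have e : θ ∘ₗ ((tv ψ ((k : D) • w))⁻¹ : V ≃ₗ[D] V).toLinearMap = θ := LinearMap.ext fun x => by
      change θ ((tv ψ ((k : D) • w))⁻¹ x) = θ x
      rw [← tv_neg_right h5, tv_apply (by rw [map_neg, h5, neg_zero]), map_add, map_smul, map_neg,
        h6, neg_zero, smul_zero, add_zero]
    rw [tv_conj _ hu, e, tv_apply h5, h2, one_smul, tv_add_right hu h6] at h7
    exact ⟨k, hk, (K.mul_mem_cancel_left h).1 h7⟩
  by_cases hw' : w ∈ Submodule.span D {u}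
  · obtain ⟨w₁, h1, h2⟩ := exists_ker_not_mem h3 θ u
    have h4 : θ (w + w₁) = 0 := by rw [map_add, hw, h1, add_zero]
    obtain ⟨k, hk, h5⟩ := key w₁ h1 h2
    obtain ⟨l, hl, h6⟩ := key (w + w₁) h4 fun h' => h2 ((Submodule.add_mem_iff_right _ hw').1 h')
    refine ⟨k * l, Nat.mul_pos hk hl, ?_⟩
    have h7 := K.mul_mem (K.pow_mem h6 k) (K.inv_mem (K.pow_mem h5 l))
    rw [tv_pow (by rw [map_smul, h4, smul_zero]), tv_pow (by rw [map_smul, h1, smul_zero]),
      ← tv_sub_right (by rw [map_smul, map_smul, h4, smul_zero, smul_zero])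
        (by rw [map_smul, map_smul, h1, smul_zero, smul_zero]), smul_smul, smul_smul,
      ← Nat.cast_mul, ← Nat.cast_mul, mul_comm l k, ← smul_sub, add_sub_cancel_right] at h7
    exact h7
  · exact key w hw hw'

/-- From one transvection to multiples of all transvections. -/
theorem ample_of_tv (h3 : 3 ≤ Module.finrank D V) {Γ K : Subgroup (V ≃ₗ[D] V)} (hΓ : Ample Γ)
    (hK : Nrm Γ K) {θ : V →ₗ[D] D} {x₀ u : V} (hx₀ : θ x₀ = 1) (hu0 : u ≠ 0) (hu : θ u = 0)
    (h : tv θ u ∈ K) : Ample K := by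
  intro ψ v hv
  by_cases h1 : ∀ x, ψ x = 0 → θ x = 0
  · have h0 : ψ x₀ ≠ 0 := fun h0 => zero_ne_one ((h1 x₀ h0).symm.trans hx₀)
    have e : ψ = θ.smulRight (ψ x₀) := LinearMap.ext fun x => by
      have := h1 (x - (ψ x * (ψ x₀)⁻¹) • x₀) (by
        rw [map_sub, map_smul, smul_eq_mul, mul_assoc, inv_mul_cancel₀ h0, mul_one, sub_self])
      rw [map_sub, map_smul, hx₀, smul_eq_mul, mul_one, sub_eq_zero] at this
      rw [LinearMap.smulRight_apply, this, smul_eq_mul, mul_assoc, inv_mul_cancel₀ h0, mul_one]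
    have h2 := h1 v hv
    obtain ⟨m, hm, h4⟩ := spread_same h3 hΓ hK hu0 hu h (ψ x₀ • v) (by rw [map_smul, h2, smul_zero])
    refine ⟨m, hm, ?_⟩
    rw [e, tv_smulRight _ _ (by rw [map_smul, h2, smul_zero]), smul_smul,
      ← (Nat.cast_commute m _).eq, mul_smul]
    exact h4
  · push Not at h1
    obtain ⟨x, hx, hx'⟩ := h1
    obtain ⟨w, hw0, hw, hw'⟩ := exists_ker₂ h3 θ ψ
    obtain ⟨m, hm, h4⟩ := spread_same h3 hΓ hK hu0 hu h w hw
    obtain ⟨k, hk, hγ⟩ := hΓ ψ x hx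
    have h5 : ψ ((k : D) • x) = 0 := by rw [map_smul, hx, smul_zero]
    have h6 : θ ((m : D) • w) = 0 := by rw [map_smul, hw, smul_zero]
    have h6' : ψ ((m : D) • w) = 0 := by rw [map_smul, hw', smul_zero]
    have h7 := hK _ hγ _ h4
    have e : θ ∘ₗ ((tv ψ ((k : D) • x))⁻¹ : V ≃ₗ[D] V).toLinearMap =
        θ - ψ.smulRight (θ ((k : D) • x)) := LinearMap.ext fun y => by
      change θ ((tv ψ ((k : D) • x))⁻¹ y) = θ y - ψ y • θ ((k : D) • x)
      rw [← tv_neg_right h5, tv_apply (by rw [map_neg, h5, neg_zero]), map_add, map_smul, map_neg,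
        smul_neg, sub_eq_add_neg]
    rw [tv_conj _ h6, e, tv_fix h6',
      tv_sub_left h6 (by rw [LinearMap.smulRight_apply, h6', zero_smul]), tv_smulRight _ _ h6',
      K.mul_mem_cancel_left h4, K.inv_mem_iff] at h7
    refine spread_same h3 hΓ hK (smul_ne_zero ?_ (smul_ne_zero (Nat.cast_ne_zero.2 hm.ne') hw0))
      (by rw [map_smul, h6', smul_zero]) h7 v hv
    rw [map_smul]
    exact smul_ne_zero (Nat.cast_ne_zero.2 hk.ne') hx'

end Pool.Agent.P.MP_d483fb_an.L
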