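import Pool.Agent.P.MP_d483fb_an.L.Base
import Pool.Agent.P.MP_d483fb_an.U.Orb0

set_option autoImplicit false
set_option linter.unusedSectionVars false

namespace Pool.Agent.P.MP_d483fb_an.L

open U (Nrm Full Scal Ar mul_apply' one_apply' apply_inv_apply' inv_apply_apply' OrbCov)

variable {D V : Type} [DivisionRing D] [StarRing D] [CharZero D] [AddCommGroup V] [Module D V]
  {ε : D} {N : D → ℚ} {n : ℕ} {O : Subring D} {b : Module.Basis (Fin n) D V}

theorem tv_sum_right {K : Subgroup (V ≃ₗ[D] V)} {φ : V →ₗ[D] D} {v : Fin n → V}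
    (h0 : ∀ i, φ (v i) = 0) (h : ∀ i, tv φ (v i) ∈ K) : tv φ (∑ i, v i) ∈ K := by
  have key : ∀ t : Finset (Fin n), tv φ (∑ i ∈ t, v i) ∈ K := by
    intro t
    induction t using Finset.induction_on with
    | empty => rw [Finset.sum_empty, tv_zero_right]; exact K.one_mem
    | insert a t ha ih =>
      rw [Finset.sum_insert ha, tv_add_right (h0 a) (by simp [h0])]
      exact K.mul_mem (h a) ih
  exact key _

theorem tv_sum_left {K : Subgroup (V ≃ₗ[D] V)} {φ : Fin n → V →ₗ[D] D} {v : V}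
    (h0 : ∀ i, φ i v = 0) (h : ∀ i, tv (φ i) v ∈ K) : tv (∑ i, φ i) v ∈ K := by
  have key : ∀ t : Finset (Fin n), tv (∑ i ∈ t, φ i) v ∈ K := by
    intro t
    induction t using Finset.induction_on with
    | empty => rw [Finset.sum_empty, tv_zero_left]; exact K.one_mem
    | insert a t ha ih =>
      rw [Finset.sum_insert ha, tv_add_left (h0 a) (by simp [h0])]
      exact K.mul_mem (h a) ih
  exact key _

theorem tv_coord_mem {s : Set (Fin n)} {i : Fin n} (hi : i ∉ s) {w : V} (hw : w ∈ lat O b)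
    (h0 : b.coord i w = 0) : tv (b.coord i) w ∈ El O b s := by
  rw [← sum_coord b w]
  refine tv_sum_right (fun l => ?_) fun l => ?_
  · by_cases e : i = l
    · rw [← e, h0, zero_smul, map_zero]
    · rw [map_smul, coord_ne b e, smul_zero]
  · by_cases e : i = l
    · rw [← e, h0, zero_smul, tv_zero_right]
      exact Subgroup.one_mem _
    · exact Subgroup.subset_closure ⟨i, l, _, hw l, hi, e, rfl⟩

/-- Euclidean reduction of the coordinates outside of `s`. -/
theorem reduce (A : Ar ε O N) (s : Set (Fin n)) {v : V} (hv : v ∈ lat O b) :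
    ∃ g ∈ El O b s, ∀ i ∉ s, ∀ l ∉ s, b.coord i (g v) ≠ 0 → b.coord l (g v) ≠ 0 → i = l := by
  have hint : ∀ v ∈ lat O b, ∃ k : ℕ, ∑ i, N (b.coord i v) = k := fun v hv => by
    choose k hk using fun i => A.int _ (hv i)
    exact ⟨∑ i, k i, by simp only [hk, Nat.cast_sum]⟩
  have key : ∀ k : ℕ, ∀ v ∈ lat O b, ∑ i, N (b.coord i v) < k →
      ∃ g ∈ El O b s, ∀ i ∉ s, ∀ l ∉ s, b.coord i (g v) ≠ 0 → b.coord l (g v) ≠ 0 → i = l := by
    intro k
    induction k with
    | zero =>
      intro v _ h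
      exact absurd (Finset.sum_nonneg fun i _ => A.nonneg _) (not_le.2 (by exact_mod_cast h))
    | succ k ih =>
      intro v hv h
      by_cases h1 : ∀ i ∉ s, ∀ l ∉ s, b.coord i v ≠ 0 → b.coord l v ≠ 0 → i = l
      · exact ⟨1, Subgroup.one_mem _, h1⟩
      push Not at h1
      obtain ⟨i, l, hi, h2, h3, hil⟩ : ∃ i l, i ∉ s ∧ b.coord i v ≠ 0 ∧
          N (b.coord i v) ≤ N (b.coord l v) ∧ i ≠ l := by
        obtain ⟨i, hi, l, hl, h2, h3, hil⟩ := h1
        rcases le_total (N (b.coord i v)) (N (b.coord l v)) with h4 | h4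
        · exact ⟨i, l, hi, h2, h4, hil⟩
        · exact ⟨l, i, hl, h3, h4, hil.symm⟩
      obtain ⟨q, hq, h4⟩ := A.div (b.coord l v) h2
      have h5 : tv (b.coord i) ((-q) • b l) ∈ El O b s :=
        Subgroup.subset_closure ⟨i, l, _, O.neg_mem hq, hi, hil, rfl⟩
      have h6 : ∀ p, b.coord p (tv (b.coord i) ((-q) • b l) v) =
          b.coord p v - b.coord i v * q * b.coord p (b l) := fun p => by
        rw [tv_apply (by rw [map_smul, coord_ne b hil, smul_zero]), map_add, map_smul, map_smul,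
          smul_eq_mul, smul_eq_mul, neg_mul, mul_neg, mul_assoc, sub_eq_add_neg]
      obtain ⟨g, hg, h7⟩ := ih _ (((El_le_GS s h5).2 v).2 hv) (by
        obtain ⟨k', hk'⟩ := hint v hv
        have h8 : (k' : ℚ) ≤ k := by
          rw [hk'] at h
          exact_mod_cast Nat.lt_succ_iff.1 (by exact_mod_cast h)
        refine lt_of_lt_of_le ?_ (hk'.trans_le h8)
        refine Finset.sum_lt_sum (fun p _ => ?_) ⟨l, Finset.mem_univ _, ?_⟩
        · by_cases e : p = l
          · rw [h6, e, coord_self, mul_one]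
            exact (h4.trans_le h3).le
          · rw [h6, coord_ne b e, mul_zero, sub_zero]
        · rw [h6, coord_self, mul_one]
          exact h4.trans_le h3)
      exact ⟨g * _, Subgroup.mul_mem _ hg h5, h7⟩
  obtain ⟨k, hk⟩ := hint v hv
  exact key (k + 1) v hv (by rw [hk]; push_cast; linarith)

theorem lvl_of_coord (A : Ar ε O N) {m : ℕ} {K : Subgroup (V ≃ₗ[D] V)}
    (hK : Nrm (GS D (lat O b)) K)
    (h : ∀ i, ∀ v ∈ lat O b, b.coord i v = 0 → tv (b.coord i) ((m : D) • v) ∈ K) : Lvl O b m K := by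
  have key : ∀ φ : V →ₗ[D] D, (∀ i, φ (b i) ∈ O) → ∀ v ∈ lat O b, φ v = 0 →
      (∀ i l, b.coord i v ≠ 0 → b.coord l v ≠ 0 → i = l) → tv φ ((m : D) • v) ∈ K := by
    intro φ hφ v hv h0 h1
    have e : φ = ∑ l, (b.coord l).smulRight (φ (b l)) := b.ext fun i => by
      rw [LinearMap.sum_apply, Finset.sum_eq_single i (fun l _ hl => by
        rw [LinearMap.smulRight_apply, coord_ne b hl, zero_smul]) (by simp),
        LinearMap.smulRight_apply, coord_self, one_smul]
    have h2 : ∀ l, b.coord l v = 0 ∨ φ (b l) = 0 := fun l => by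
      by_cases h3 : b.coord l v = 0
      · exact Or.inl h3
      · rw [← sum_coord b v, map_sum, Finset.sum_eq_single l (fun i _ hi => by
          rw [not_not.1 fun h4 => hi (h1 i l h4 h3), zero_smul, map_zero]) (by simp), map_smul,
          smul_eq_mul] at h0
        exact mul_eq_zero.1 h0
    rw [e]
    refine tv_sum_left (fun l => ?_) fun l => ?_
    · rw [map_smul, LinearMap.smulRight_apply, smul_eq_mul (b.coord l v), mul_eq_zero.2 (h2 l),
        smul_zero]
    · rcases h2 l with h3 | h3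
      · rw [tv_smulRight _ _ (by rw [map_smul, h3, smul_zero]), smul_smul,
          ← (Nat.cast_commute m _).eq, mul_smul]
        exact h l _ (smul_mem (hφ l) hv) (by rw [map_smul, h3, smul_zero])
      · rw [h3, LinearMap.smulRight_zero, tv_zero_left]
        exact K.one_mem
  intro φ hφ v hv h0
  obtain ⟨g, hg, h1⟩ := reduce A ∅ hv
  have hg' := El_le_GS _ hg
  have h2 := key (φ ∘ₗ (g⁻¹ : V ≃ₗ[D] V).toLinearMap)
    (fun i => dual_mem hφ ((((GS D _).inv_mem hg').2 _).2 (basis_mem i))) (g v) ((hg'.2 v).2 hv)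
    (by
      change φ (g⁻¹ (g v)) = 0
      rw [inv_apply_apply', h0]) fun i l => h1 i (by simp) l (by simp)
  rw [← map_smul, ← tv_conj g (by rw [map_smul, h0, smul_zero])] at h2
  have h3 := hK _ ((GS D _).inv_mem hg') _ h2
  simpa only [mul_assoc, inv_inv, inv_mul_cancel_left, inv_mul_cancel, mul_one] using h3

/-- Elementary transvections generate a subgroup of finite index. -/
theorem relIndex_of_El_le (A : Ar ε O N) {E : Subgroup (V ≃ₗ[D] V)} (hE : Nrm (GS D (lat O b)) E)
    (h4 : El O b ∅ ≤ E) : E.relIndex (GS D (lat O b)) ≠ 0 := by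
  have step : ∀ (s : Set (Fin n)) (j : Fin n), j ∉ s →
      OrbCov (0 : U.Form D V) (lat O b) E (insert (b j) (b '' s)) →
      OrbCov (0 : U.Form D V) (lat O b) E (b '' s) := by
    intro s j hj hc
    refine U.orb_step hE (b j) (T := Set.image2 (fun (c : D) i => c • b i)
      {a | a ∈ O ∧ N a = 1} Set.univ) (A.finite_units.image2 _ Set.finite_univ)
      (fun g hg hgP => ?_) hc
    obtain ⟨g₁, hg₁, h1⟩ := reduce A s ((hg.2 _).2 (basis_mem j))
    have hγ : g₁ * g ∈ GS D (lat O b) := (GS D _).mul_mem (El_le_GS s hg₁) hg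
    have hγP : ∀ p ∈ s, (g₁ * g)⁻¹ (b p) = b p := fun p hp => by
      conv_lhs => rw [← El_fix hg₁ hp, ← hgP _ ⟨p, hp, rfl⟩]
      exact inv_apply_apply' (g₁ * g) _
    set v := g₁ (g (b j)) with hv
    have hvΛ : v ∈ lat O b := (hγ.2 _).2 (basis_mem j)
    have h2 : ∑ i, b.coord i v * b.coord j ((g₁ * g)⁻¹ (b i)) = 1 := by
      have : b.coord j ((g₁ * g)⁻¹ v) = 1 := by
        rw [← coord_self b j]
        exact congrArg _ (inv_apply_apply' (g₁ * g) _)
      rw [← this]
      conv_rhs => rw [← sum_coord b v]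
      simp only [map_sum, map_smul, smul_eq_mul]
    have h3 : ∀ p ∈ s, b.coord p v * b.coord j ((g₁ * g)⁻¹ (b p)) = 0 := fun p hp => by
      rw [hγP p hp, coord_ne b fun e : j = p => hj (e ▸ hp), mul_zero]
    obtain ⟨i, -, hi⟩ := Finset.exists_ne_zero_of_sum_ne_zero (h2.trans_ne one_ne_zero)
    have his : i ∉ s := fun h => hi (h3 i h)
    rw [Finset.sum_eq_single i (fun l _ hl => by
      by_cases hl' : l ∈ s
      · exact h3 l hl'
      · rw [not_not.1 fun h4 => hl (h1 l hl' i his h4 (left_ne_zero_of_mul hi)), zero_mul])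
      (by simp)] at h2
    have hu : b.coord j ((g₁ * g)⁻¹ (b i)) ∈ O :=
      (((GS D _).inv_mem hγ).2 _).2 (basis_mem i) j
    set u := b.coord j ((g₁ * g)⁻¹ (b i))
    have h5 : b.coord i (u • (b.coord i v • b i - v)) = 0 := by
      rw [map_smul, map_sub, map_smul, coord_self, smul_eq_mul (b.coord i v), mul_one, sub_self,
        smul_zero]
    have h6 := tv_coord_mem his
      (smul_mem hu ((lat O b).sub_mem (smul_mem (hvΛ i) (basis_mem i)) hvΛ)) h5
    have h7 := Subgroup.mul_mem _ h6 hg₁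
    refine ⟨_, h4 (El_mono (Set.empty_subset s) h7), El_le_GS s h7, ?_,
      b.coord i v, ⟨hvΛ i, A.N_eq_one (hvΛ i) hu h2⟩, i, trivial, ?_⟩
    · rintro _ ⟨p, hp, rfl⟩
      exact El_fix h7 hp
    · rw [mul_apply', ← hv, tv_apply h5, smul_smul, h2, one_smul, add_sub_cancel]
  have key : ∀ t : Finset (Fin n), OrbCov (0 : U.Form D V) (lat O b) E (b '' t) →
      OrbCov (0 : U.Form D V) (lat O b) E ∅ := by
    intro t
    induction t using Finset.induction_on with
    | empty => simp
    | insert j t hj ih =>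
      intro h
      rw [Finset.coe_insert, Set.image_insert_eq] at h
      exact ih (step _ j (by simpa using hj) h)
  refine U.orb_fin (key Finset.univ ⟨{1}, Set.finite_singleton _, fun s hs => hs ▸ (GS D _).one_mem,
    fun g _ hg => ⟨1, rfl, ?_⟩⟩)
  have : g = 1 := LinearEquiv.toLinearMap_injective (b.ext fun i => hg _ ⟨i, by simp, rfl⟩)
  rw [this, mul_one, inv_one]
  exact E.one_mem

end Pool.Agent.P.MP_d483fb_an.L
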