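import Pool.Agent.P.MP_d483fb_an.L.NST
import Pool.Agent.P.MP_d483fb_an.U.Hur

set_option autoImplicit false

open scoped Matrix Quaternion

namespace Pool.Agent.P.MP_d483fb_an.L

open U (Full Scal Ar MatA_c MatA_j)

/-- Normal subgroup theorem for general linear groups over an order. -/
theorem nst_gl {R D : Type} [Ring R] [StarRing R] [DivisionRing D] [StarRing D] [CharZero D]
    (ι : R →+* D) (hι : Function.Injective ι) (hs : ∀ x, ι (star x) = star (ι x))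
    (hfg : Module.Finite ℤ R) (hfull : ∀ d : D, ∃ k : ℕ, 0 < k ∧ ∃ r, ι r = (k : D) * d)
    {ε : D} {O : Subring D} {N : D → ℚ} (A : Ar ε O N) {n : ℕ} (hn : 3 ≤ n)
    {Γ : Subgroup (GL (Fin n) R)} (hi : Γ.index ≠ 0)
    (K : Subgroup Γ) [K.Normal] {d : Γ} (hd : d ∈ K)
    (h1 : (d : GL (Fin n) R) ∉ Subgroup.center (GL (Fin n) R)) : K.FiniteIndex := by
  have hL : (MatA_c ι n).range.FG := by
    have : AddGroup.FG (Fin n → R) := Module.Finite.iff_addGroup_fg.1 inferInstance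
    exact (AddGroup.fg_iff_addSubgroup_fg _).1 inferInstance
  have hL' : Full D (MatA_c ι n).range := fun x => by
    obtain ⟨k, hk, r, hr⟩ := U.MatA_full hfull x
    exact ⟨k, hk, r, funext fun i => hr i⟩
  have htop : (⊤ : Subgroup (GL (Fin n) R)).map (MatA_j ι n) = GS D (MatA_c ι n).range := by
    have e1 : isom (0 : Matrix (Fin n) (Fin n) R) = ⊤ := by
      refine top_le_iff.1 fun g _ => ?_
      change g.valᴴ * 0 * g.val = 0
      simp
    have e2 : U.MatA_h ((0 : Matrix (Fin n) (Fin n) R).map ι) = 0 := by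
      refine LinearMap.ext fun x => AddMonoidHom.ext fun y => ?_
      rw [U.MatA_h_apply, Matrix.map_zero _ (map_zero ι)]
      simp
    rw [← e1, U.MatA_map_isom hι hs, e2]
  have hΓ' : Γ.map (MatA_j ι n) ≤ GS D (MatA_c ι n).range := by
    rw [← htop]
    exact Subgroup.map_mono le_top
  have hi' : (Γ.map (MatA_j ι n)).relIndex (GS D (MatA_c ι n).range) ≠ 0 := by
    rwa [← htop, Subgroup.relIndex_map_map_of_injective _ _ (U.MatA_j_inj hι),
      Subgroup.relIndex_top_right]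
  have hN : U.Nrm (Γ.map (MatA_j ι n)) ((K.map Γ.subtype).map (MatA_j ι n)) := by
    rintro _ ⟨γ, hγ, rfl⟩ _ ⟨_, ⟨x, hx, rfl⟩, rfl⟩
    have h3 : (⟨γ, hγ⟩ : Γ) * x * (⟨γ, hγ⟩ : Γ)⁻¹ ∈ K :=
      Subgroup.Normal.conj_mem inferInstance x hx _
    have h4 := Subgroup.mem_map_of_mem (MatA_j ι n) (Subgroup.mem_map_of_mem Γ.subtype h3)
    rw [map_mul, map_mul, map_inv, map_mul, map_mul, map_inv] at h4
    exact h4
  have hsc : ¬Scal (MatA_j ι n d) := by
    rintro ⟨c, -, hc⟩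
    apply h1
    rw [Subgroup.mem_center_iff]
    intro γ
    apply U.MatA_j_inj (n := n) hι
    rw [map_mul, map_mul]
    refine LinearEquiv.ext fun x => ?_
    rw [U.mul_apply', U.mul_apply', hc, hc, map_smul]
  have h := nst A hn (Pi.basisFun D (Fin n)) hL hL' hΓ' hi' hN (d := MatA_j ι n d)
    ⟨d, ⟨d, hd, rfl⟩, rfl⟩ hsc
  rw [Subgroup.relIndex_map_map_of_injective _ _ (U.MatA_j_inj hι), Subgroup.relIndex,
    Subgroup.subgroupOf, Subgroup.comap_map_eq_self_of_injective Γ.subtype_injective] at h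
  exact ⟨h⟩

/-- Normal subgroup theorem for the general linear group of the integral quaternions. -/
theorem nst_quat {n : ℕ} (hn : 3 ≤ n) {Γ : Subgroup (GL (Fin n) ℍ[ℤ])} (hi : Γ.index ≠ 0)
    (K : Subgroup Γ) [K.Normal] {d : Γ} (hd : d ∈ K)
    (h1 : (d : GL (Fin n) ℍ[ℤ]) ∉ Subgroup.center (GL (Fin n) ℍ[ℤ])) : K.FiniteIndex := by
  obtain ⟨D, _, _, _, ι, O, N, hι, hs, -, hfull, -, A⟩ :=
    U.exists_Ar {⟨0, 1, 0, 0⟩, ⟨0, 0, 1, 0⟩} subset_rfl
  have hm : ∀ x : ℍ[ℤ], x ∈ StarAlgebra.adjoin ℤ ({⟨0, 1, 0, 0⟩, ⟨0, 0, 1, 0⟩} : Set ℍ[ℤ]) := by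
    intro x
    rw [U.hur_adjoin _ subset_rfl]
    exact ⟨fun h => absurd (Or.inl rfl) h, fun h => absurd (Or.inr rfl) h,
      fun h => h.elim (fun h => absurd (Or.inl rfl) h) fun h => absurd (Or.inr rfl) h⟩
  let κ : ℍ[ℤ] →+* StarAlgebra.adjoin ℤ ({⟨0, 1, 0, 0⟩, ⟨0, 0, 1, 0⟩} : Set ℍ[ℤ]) :=
    (RingHom.id _).codRestrict _ hm
  refine nst_gl (ι.comp κ) (hι.comp fun a b h => congrArg Subtype.val h)
    (fun x => hs (κ x)) inferInstance (fun d => ?_) A hn hi K hd h1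
  obtain ⟨k, hk, r, hr⟩ := hfull d
  exact ⟨k, hk, r.1, hr⟩

end Pool.Agent.P.MP_d483fb_an.L
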