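import Pool.Agent.P.MP_d483fb_an.L.First
import Pool.Agent.P.MP_d483fb_an.L.Gen
import Pool.Agent.P.MP_d483fb_an.U.MatA

set_option autoImplicit false
set_option linter.unusedSectionVars false

namespace Pool.Agent.P.MP_d483fb_an.L

open U (Full Scal Ar)

variable {D V : Type} [DivisionRing D] [StarRing D] [CharZero D] [AddCommGroup V] [Module D V]
  {ε : D} {N : D → ℚ} {n : ℕ} {O : Subring D} {b : Module.Basis (Fin n) D V}

theorem lvl_left {m : ℕ} {K : Subgroup (V ≃ₗ[D] V)} (h : Lvl O b m K) {φ ψ : V →ₗ[D] D} {v : V}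
    (hv : v ∈ lat O b) (h1 : φ v = 0) (h2 : ψ v = 0) (hm : 0 < m)
    (e : ∀ i, ∃ c ∈ O, φ (b i) = ψ (b i) + (m : D) * c) : tv φ v * (tv ψ v)⁻¹ ∈ K := by
  choose c hc e using e
  have hm' : (m : D) ≠ 0 := Nat.cast_ne_zero.2 hm.ne'
  have h3 : (φ - ψ).smulRight (m : D)⁻¹ ((m : D) • v) = 0 := by
    rw [LinearMap.smulRight_apply, map_smul, LinearMap.sub_apply, h1, h2, sub_zero, smul_zero,
      zero_smul]
  have := h ((φ - ψ).smulRight (m : D)⁻¹) (fun i => by
    rw [LinearMap.smulRight_apply, LinearMap.sub_apply, e, add_sub_cancel_left, smul_eq_mul,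
      (Nat.cast_commute m _).eq, mul_assoc, mul_inv_cancel₀ hm', mul_one]
    exact hc i) v hv (by
      rw [LinearMap.smulRight_apply, LinearMap.sub_apply, h1, h2, sub_zero, zero_smul])
  rwa [tv_smulRight _ _ (by rw [map_smul, LinearMap.sub_apply, h1, h2, sub_zero, smul_zero]),
    inv_smul_smul₀ hm', tv_sub_left h1 h2] at this

/-- A congruence subgroup centralises the elementary transvections modulo `K`. -/
theorem cent (A : Ar ε O N) (hn : 3 ≤ n) {m : ℕ} (hm : 0 < m) {K : Subgroup (V ≃ₗ[D] V)}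
    (hK : U.Nrm (GS D (lat O b)) K) (h : Lvl O b m K) {i j : Fin n} (hij : i ≠ j) {a : D} (ha : a ∈ O)
    {g : V ≃ₗ[D] V} (hg : g ∈ U.Cong (0 : U.Form D V) (lat O b) (m * m)) :
    g * tv (b.coord i) (a • b j) * g⁻¹ * (tv (b.coord i) (a • b j))⁻¹ ∈ K := by
  obtain ⟨l, hli, hlj⟩ : ∃ l : Fin n, l ≠ i ∧ l ≠ j := by
    by_contra hc
    push Not at hc
    have : (Finset.univ : Finset (Fin n)) ⊆ {i, j} := fun l _ => by
      by_cases e : l = i
      · simp [e]
      · simp [hc l e]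
    have h1 := (Finset.card_le_card this).trans Finset.card_le_two
    rw [Finset.card_fin] at h1
    omega
  have hmO : (m : D) ∈ O := natCast_mem O m
  have hc : ∀ x : D, x * (m : D) = m * x := fun x => (Nat.cast_commute m x).eq.symm
  have hc' : ∀ x y : D, x * ((m : D) * y) = m * (x * y) := fun x y => by
    rw [← mul_assoc, hc, mul_assoc]
  have h0 : b.coord j ((m : D) • b l) = 0 := by rw [map_smul, coord_ne b hlj.symm, smul_zero]
  have hν : tv (b.coord j) ((m : D) • b l) ∈ K :=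
    h _ (fun k => basis_mem k j) _ (basis_mem l) (coord_ne b hlj.symm)
  have hνG : tv (b.coord j) ((m : D) • b l) ∈ GS D (lat O b) :=
    tv_mem_GS (fun k => basis_mem k j) (smul_mem hmO (basis_mem l))
  set ν := tv (b.coord j) ((m : D) • b l) with hνd
  have hγ : ν * g ∈ U.Cong (0 : U.Form D V) (lat O b) m := by
    refine Subgroup.mul_mem _ ⟨hνG, fun x hx => ⟨b.coord j x • b l, smul_mem (hx j) (basis_mem l), ?_⟩⟩
      (U.cong_le (Dvd.intro _ rfl) hg)
    rw [hνd, tv_apply h0, smul_smul, smul_smul, hc]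
  obtain ⟨x, hx, e1⟩ := hg.2 _ (basis_mem (O := O) j)
  rw [Nat.cast_mul] at e1
  obtain ⟨y₀, hy₀⟩ : ∃ y₀, y₀ = (m : D) * b.coord j x + b.coord l x := ⟨_, rfl⟩
  have hy₀O : y₀ ∈ O := hy₀ ▸ O.add_mem (O.mul_mem hmO (hx j)) (hx l)
  obtain ⟨y, hy⟩ : ∃ y, y = 1 + (m : D) * y₀ := ⟨_, rfl⟩
  have hyO : y ∈ O := hy ▸ O.add_mem O.one_mem (O.mul_mem hmO hy₀O)
  have hY : y * star y = 1 + (m : D) * (y₀ + star y₀ + m * (y₀ * star y₀)) := by
    rw [hy, star_add, star_one, star_mul, star_natCast, hc]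
    simp only [mul_add, add_mul, one_mul, mul_one, mul_assoc, hc' y₀]
    abel
  have hY' : y₀ + star y₀ + m * (y₀ * star y₀) ∈ O := O.add_mem (O.add_mem hy₀O (A.star_mem _ hy₀O))
    (O.mul_mem hmO (O.mul_mem hy₀O (A.star_mem _ hy₀O)))
  have p1 : b.coord l ((ν * g) (b j)) = m * y := by
    rw [U.mul_apply', hνd, tv_apply h0, e1, hy, hy₀]
    simp only [map_add, map_smul, smul_eq_mul, coord_self, coord_ne b hlj, mul_add, add_mul,
      mul_assoc, one_mul, mul_one, zero_add, hc]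
    abel
  have p2 : b.coord i ((ν * g) (b j)) = m * (m * b.coord i x) := by
    rw [U.mul_apply', hνd, tv_apply h0, e1]
    simp only [map_add, map_smul, smul_eq_mul, coord_ne b hij, coord_ne b hli.symm, mul_zero,
      add_zero, zero_add, mul_assoc]
  set γ := ν * g
  let ψ : V →ₗ[D] D := (b.coord i).smulRight (y * star y) -
    (b.coord l).smulRight (m * (star y * b.coord i x))
  have hψ : ∀ v, ψ v = b.coord i v * (y * star y) - b.coord l v * (m * (star y * b.coord i x)) :=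
    fun v => rfl
  have q0 : ∀ k, ∃ c ∈ O, ψ (b k) = b.coord i (b k) + (m : D) * c := fun k =>
    ⟨b.coord i (b k) * (y₀ + star y₀ + m * (y₀ * star y₀)) -
      b.coord l (b k) * (star y * b.coord i x),
      O.sub_mem (O.mul_mem (basis_mem k i) hY') (O.mul_mem (basis_mem k l)
        (O.mul_mem (A.star_mem _ hyO) (hx i))), by
      rw [hψ, hY, mul_add, mul_one, hc', hc', mul_sub, add_sub_assoc]⟩
  have q0' : ∀ k, ψ (b k) ∈ O := fun k => by
    obtain ⟨c, hc, e⟩ := q0 k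
    exact e ▸ O.add_mem (basis_mem k i) (O.mul_mem hmO hc)
  have q1 : ψ (a • b j) = 0 := by
    rw [map_smul, hψ, coord_ne b hij, coord_ne b hlj, zero_mul, zero_mul, sub_zero, smul_zero]
  have q2 : ψ (γ (a • b j)) = 0 := by
    rw [map_smul, map_smul, hψ, p1, p2, mul_assoc (m : D) y, hc' y, ← mul_assoc y, A.mul_star,
      (Rat.cast_commute (N y) (b.coord i x)).eq, mul_assoc, mul_assoc, sub_self, smul_zero]
  have q3 : b.coord i (a • b j) = 0 := by rw [map_smul, coord_ne b hij, smul_zero]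
  have haj : a • b j ∈ lat O b := smul_mem ha (basis_mem j)
  have k1 : γ * tv (b.coord i) (a • b j) * γ⁻¹ * (tv ψ (γ (a • b j)))⁻¹ ∈ K := by
    rw [tv_conj γ q3]
    refine lvl_left h ((hγ.1.2 _).2 haj) (by
      change b.coord i (γ⁻¹ (γ _)) = 0
      rw [U.inv_apply_apply', q3]) q2 hm fun k => ?_
    obtain ⟨c, hc, e⟩ := q0 k
    obtain ⟨z, hz, e'⟩ := (Subgroup.inv_mem _ hγ).2 _ (basis_mem (O := O) k)
    refine ⟨b.coord i z - c, O.sub_mem (hz i) hc, ?_⟩
    change b.coord i (γ⁻¹ (b k)) = _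
    rw [e', e, map_add, map_smul, smul_eq_mul, mul_sub]
    abel
  have k2 : tv ψ (γ (a • b j)) * (tv ψ (a • b j))⁻¹ ∈ K := by
    obtain ⟨z, hz, e'⟩ := hγ.2 _ haj
    have q4 : ψ z = 0 := by
      rw [e', map_add, q1, zero_add, map_smul, smul_eq_mul] at q2
      exact (mul_eq_zero.1 q2).resolve_left (Nat.cast_ne_zero.2 hm.ne')
    rw [← tv_sub_right q2 q1, e', add_sub_cancel_left]
    exact h ψ q0' z hz q4
  have k3 := lvl_left h haj q1 q3 hm q0
  have r0 : tv (b.coord i) (a • b j) ∈ GS D (lat O b) := tv_mem_GS (fun k => basis_mem k i) haj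
  set r := tv (b.coord i) (a • b j)
  have k4 := K.mul_mem (K.mul_mem (K.inv_mem hν) (K.mul_mem (K.mul_mem k1 k2) k3)) (hK r r0 ν hν)
  convert k4 using 1
  simp only [γ]
  group

theorem lat_fg (A : Ar ε O N) (b : Module.Basis (Fin n) D V) : (lat O b).FG := by
  classical
  obtain ⟨s, hs⟩ := A.fg
  refine ⟨Finset.image₂ (fun a i => a • b i) s Finset.univ, le_antisymm ?_ fun x hx => ?_⟩
  · rw [AddSubgroup.closure_le, Finset.coe_image₂]
    rintro _ ⟨a, ha, i, -, rfl⟩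
    have : a ∈ O.toAddSubgroup := hs ▸ AddSubgroup.subset_closure ha
    exact smul_mem this (basis_mem i)
  · rw [← sum_coord b x]
    refine AddSubgroup.sum_mem _ fun i _ => ?_
    have : b.coord i x ∈ AddSubgroup.closure (s : Set D) := hs ▸ hx i
    generalize b.coord i x = a at this
    induction this using AddSubgroup.closure_induction with
    | mem a ha => exact AddSubgroup.subset_closure (by
        rw [Finset.coe_image₂]; exact ⟨a, ha, i, by simp, rfl⟩)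
    | zero => rw [zero_smul]; exact zero_mem _
    | add a a' _ _ h1 h2 => rw [add_smul]; exact add_mem h1 h2
    | neg a _ h1 => rw [neg_smul]; exact neg_mem h1

theorem lat_full (A : Ar ε O N) (b : Module.Basis (Fin n) D V) : Full D (lat O b) := fun x => by
  choose k hk h using fun i => A.full (b.coord i x)
  refine ⟨∏ i, k i, Finset.prod_pos fun i _ => hk i, fun i => ?_⟩
  obtain ⟨c, hc⟩ := Finset.dvd_prod_of_mem k (Finset.mem_univ i)
  rw [map_smul, hc, mul_comm, Nat.cast_mul, smul_eq_mul, mul_assoc]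
  exact O.mul_mem (natCast_mem O c) (h i)

theorem relIndex_of_lvl (A : Ar ε O N) (hn : 3 ≤ n) {m : ℕ} (hm : 0 < m)
    {K : Subgroup (V ≃ₗ[D] V)} (hK : U.Nrm (GS D (lat O b)) K) (h : Lvl O b m K) :
    K.relIndex (GS D (lat O b)) ≠ 0 := by
  obtain ⟨s, hs⟩ := A.fg
  have hsO : ∀ a ∈ s, a ∈ O := fun a ha => by
    have : a ∈ O.toAddSubgroup := hs ▸ AddSubgroup.subset_closure ha
    exact this
  let K' : Subgroup (GS D (lat O b)) := K.subgroupOf _
  let Z : Subgroup (GS D (lat O b)) := (U.Cong (0 : U.Form D V) (lat O b) (m * m)).subgroupOf _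
  have : K'.Normal := ⟨fun x hx g => hK g.1 g.2 x.1 hx⟩
  have : Z.Normal := ⟨fun x hx g => U.cong_nrm _ g.1 g.2 x.1 hx⟩
  have : Z.FiniteIndex := ⟨U.cong_relIndex (lat_fg A b) (Nat.mul_pos hm hm)⟩
  let R : Set (GS D (lat O b)) := Subtype.val ⁻¹'
    ((fun p : Fin n × Fin n × D => tv (b.coord p.1) (p.2.2 • b p.2.1)) ''
      {p | p.1 ≠ p.2.1 ∧ p.2.2 ∈ s})
  have hR : R.Finite := Set.Finite.preimage Subtype.val_injective.injOn
    (((Set.finite_univ.prod (Set.finite_univ.prod s.finite_toSet)).subset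
      fun p hp => ⟨trivial, trivial, hp.2⟩).image _)
  have h0 : ∀ {i j : Fin n}, i ≠ j → ∀ a : D, b.coord i (a • b j) = 0 := fun hij a => by
    rw [map_smul, coord_ne b hij, smul_zero]
  have h1 : ∀ r ∈ R, r ^ m ∈ K' := by
    rintro r ⟨⟨i, j, a⟩, ⟨hij, ha⟩, e⟩
    change r.1 ^ m ∈ K
    rw [← e, tv_pow (h0 hij a)]
    exact h _ (fun k => basis_mem k i) _ (smul_mem (hsO a ha) (basis_mem j)) (h0 hij a)
  have h2 : ∀ r ∈ R, ∀ z ∈ Z, z * r * z⁻¹ * r⁻¹ ∈ K' := by
    rintro r ⟨⟨i, j, a⟩, ⟨hij, ha⟩, e⟩ z hz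
    change z.1 * r.1 * z.1⁻¹ * r.1⁻¹ ∈ K
    rw [← e]
    exact cent A hn hm hK h hij (hsO a ha) hz
  have hd := dietz K' Z hR hm h1 h2
  let E' : Subgroup (GS D (lat O b)) := Subgroup.normalClosure R ⊔ K'
  have hE' : E'.Normal := inferInstance
  let E : Subgroup (V ≃ₗ[D] V) := E'.map (GS D (lat O b)).subtype
  have hE : U.Nrm (GS D (lat O b)) E := by
    rintro g hg _ ⟨x, hx, rfl⟩
    exact ⟨_, hE'.conj_mem x hx ⟨g, hg⟩, rfl⟩
  have h4 : El O b ∅ ≤ E := by
    rw [El, Subgroup.closure_le]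
    rintro _ ⟨i, j, a, ha, -, hij, rfl⟩
    have ha' : a ∈ AddSubgroup.closure (s : Set D) := hs ▸ ha
    clear ha
    induction ha' using AddSubgroup.closure_induction with
    | mem a ha =>
      exact ⟨⟨_, tv_mem_GS (fun k => basis_mem k i) (smul_mem (hsO a ha) (basis_mem j))⟩,
        Subgroup.mem_sup_left (Subgroup.subset_normalClosure ⟨(i, j, a), ⟨hij, ha⟩, rfl⟩), rfl⟩
    | zero => rw [zero_smul, tv_zero_right]; exact E.one_mem
    | add a a' _ _ h1 h2 => rw [add_smul, tv_add_right (h0 hij a) (h0 hij a')]; exact E.mul_mem h1 h2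
    | neg a _ h1 => rw [neg_smul, tv_neg_right (h0 hij a)]; exact E.inv_mem h1
  have hi := relIndex_of_El_le A hE h4
  have hEE : E.subgroupOf (GS D (lat O b)) = E' :=
    Subgroup.comap_map_eq_self_of_injective (GS D (lat O b)).subtype_injective E'
  rw [Subgroup.relIndex, hEE] at hi
  change K'.index ≠ 0
  rw [← Subgroup.relIndex_mul_index (show K' ≤ E' from le_sup_right)]
  exact mul_ne_zero hd hi

theorem tv_mul_level {K : Subgroup (V ≃ₗ[D] V)} {φ : V →ₗ[D] D} {v : V} (hv : φ v = 0) {m : ℕ}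
    (h : tv φ ((m : D) • v) ∈ K) (k : ℕ) : tv φ (((k * m : ℕ) : D) • v) ∈ K := by
  rw [Nat.cast_mul, mul_smul, ← tv_pow (by rw [map_smul, hv, smul_zero])]
  exact K.pow_mem h k

theorem level_fg {K : Subgroup (V ≃ₗ[D] V)} (hK : Ample K) (φ : V →ₗ[D] D) {L : AddSubgroup V}
    (hL : L.FG) : ∃ m : ℕ, 0 < m ∧ ∀ v ∈ L, φ v = 0 → tv φ ((m : D) • v) ∈ K := by
  have key : ∀ L : AddSubgroup V, L.FG → (∀ v ∈ L, φ v = 0) →
      ∃ m : ℕ, 0 < m ∧ ∀ v ∈ L, tv φ ((m : D) • v) ∈ K := by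
    intro L hL
    refine U.fg_induction (P := fun L => (∀ v ∈ L, φ v = 0) →
      ∃ m : ℕ, 0 < m ∧ ∀ v ∈ L, tv φ ((m : D) • v) ∈ K) (fun _ => ⟨1, one_pos, fun v hv => ?_⟩)
      (fun a L _ ih h => ?_) hL
    · rw [AddSubgroup.mem_bot.1 hv, smul_zero, tv_zero_right]
      exact K.one_mem
    · have ha := h a (AddSubgroup.mem_sup_left (AddSubgroup.mem_zmultiples a))
      have hL' : ∀ v ∈ L, φ v = 0 := fun v hv => h v (AddSubgroup.mem_sup_right hv)
      obtain ⟨m₁, hm₁, h₁⟩ := ih hL'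
      obtain ⟨m₂, hm₂, h₂⟩ := hK φ a ha
      refine ⟨m₁ * m₂, Nat.mul_pos hm₁ hm₂, fun v hv => ?_⟩
      obtain ⟨_, ⟨c, rfl⟩, z, hz, rfl⟩ := AddSubgroup.mem_sup.1 hv
      have hc : φ (c • a) = 0 := by rw [map_zsmul, ha, smul_zero]
      rw [smul_add, tv_add_right (by rw [map_smul, hc, smul_zero])
        (by rw [map_smul, hL' z hz, smul_zero])]
      refine K.mul_mem (tv_mul_level hc ?_ m₁) (by
        rw [mul_comm]; exact tv_mul_level (hL' z hz) (h₁ z hz) m₂)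
      obtain ⟨k, rfl | rfl⟩ := c.eq_nat_or_neg
      · rw [natCast_zsmul, ← Nat.cast_smul_eq_nsmul D, smul_smul, ← Nat.cast_mul, mul_comm]
        exact tv_mul_level ha h₂ k
      · rw [neg_smul, smul_neg, natCast_zsmul, ← Nat.cast_smul_eq_nsmul D, smul_smul, ← Nat.cast_mul,
          mul_comm, tv_neg_right (by rw [map_smul, ha, smul_zero])]
        exact K.inv_mem (tv_mul_level ha h₂ k)
  obtain ⟨m, hm, h⟩ := key (L ⊓ (LinearMap.ker φ).toAddSubgroup) (U.fg_of_le hL inf_le_left)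
    fun v hv => hv.2
  exact ⟨m, hm, fun v hv h0 => h v ⟨hv, h0⟩⟩

theorem ample_of_relIndex {L : AddSubgroup V} (hL : L.FG) (hL' : Full D L)
    {Γ : Subgroup (V ≃ₗ[D] V)} (hi : Γ.relIndex (GS D L) ≠ 0) : Ample Γ := by
  intro φ v hv
  obtain ⟨k, hk, h⟩ := U.exists_smul_mem hL' (U.congr_fg_map hL (φ.smulRight v).toAddMonoidHom)
  have h0 : φ ((k : D) • v) = 0 := by rw [map_smul, hv, smul_zero]
  have h1 : ∀ x ∈ L, φ x • (k : D) • v ∈ L := fun x hx => by
    rw [smul_smul, ← (Nat.cast_commute k _).eq, mul_smul]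
    exact h _ ⟨x, hx, rfl⟩
  have hmem : tv φ ((k : D) • v) ∈ GS D L := by
    refine mem_GS.2 fun x => ⟨fun hx => ?_, fun hx => ?_⟩
    · have := L.sub_mem hx (h1 _ hx)
      rwa [tv_apply h0, map_add, map_smul, h0, smul_zero, add_zero, add_sub_cancel_right] at this
    · rw [tv_apply h0]
      exact L.add_mem hx (h1 x hx)
  obtain ⟨l, hl, -, h2⟩ := Subgroup.exists_pow_mem_of_relIndex_ne_zero hi hmem
  refine ⟨l * k, Nat.mul_pos hl hk, ?_⟩
  rw [Nat.cast_mul, mul_smul, ← tv_pow h0]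
  exact h2.1

/-- Normal subgroup theorem. -/
theorem nst (A : Ar ε O N) (hn : 3 ≤ n) (b : Module.Basis (Fin n) D V) {L : AddSubgroup V}
    (hL : L.FG) (hL' : Full D L) {Γ K : Subgroup (V ≃ₗ[D] V)} (hΓ : Γ ≤ GS D L)
    (hi : Γ.relIndex (GS D L) ≠ 0) (hK : U.Nrm Γ K) {d : V ≃ₗ[D] V} (hd : d ∈ K) (h1 : ¬Scal d) :
    K.relIndex Γ ≠ 0 := by
  have := Module.Finite.of_basis b
  have h3 : 3 ≤ Module.finrank D V := by rwa [Module.finrank_eq_card_basis b, Fintype.card_fin]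
  have hA := ample_of_relIndex hL hL' hi
  obtain ⟨θ, x₀, u, hx₀, hu0, hu, h⟩ := exists_tv_mem h3 hA hK hd h1
  have hall := ample_of_tv h3 hA hK hx₀ hu0 hu h
  have hi' : Γ.relIndex (GS D (lat O b)) ≠ 0 :=
    Subgroup.relIndex_ne_zero_trans hi (U.UL_relIndex hL hL' (lat_fg A b) (lat_full A b))
  obtain ⟨T, hT, hTO, hrep⟩ := NST_reps hi'
  have := hT.to_subtype
  have := Fintype.ofFinite T
  choose m hm hlv using fun p : T × Fin n =>
    level_fg hall (b.coord p.2 ∘ₗ (p.1.1⁻¹ : V ≃ₗ[D] V).toLinearMap) (lat_fg A b)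
  let C : Subgroup (V ≃ₗ[D] V) :=
    { carrier := {x | ∀ g ∈ GS D (lat O b), g * x * g⁻¹ ∈ K}
      one_mem' := fun g _ => by simp
      mul_mem' := fun {a a'} ha ha' g hg => by
        simpa [mul_assoc] using K.mul_mem (ha g hg) (ha' g hg)
      inv_mem' := fun {a} ha g hg => by simpa [mul_assoc] using K.inv_mem (ha g hg) }
  have hC : U.Nrm (GS D (lat O b)) C := fun γ hγ x hx g hg => by
    simpa [mul_assoc] using hx (g * γ) ((GS D _).mul_mem hg hγ)
  have hl : Lvl O b (∏ p, m p) C := lvl_of_coord A hC fun i v hv h0 g hg => by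
    obtain ⟨t, ht, γ, hγ, rfl⟩ := hrep g hg
    obtain ⟨c, hc⟩ := Finset.dvd_prod_of_mem m (Finset.mem_univ (⟨t, ht⟩, i))
    have h4 : (b.coord i ∘ₗ (t⁻¹ : V ≃ₗ[D] V).toLinearMap) (t v) = 0 := by
      change b.coord i (t⁻¹ (t v)) = 0
      rw [U.inv_apply_apply', h0]
    have h5 := tv_mul_level h4 (hlv (⟨t, ht⟩, i) (t v) (((hTO t ht).2 v).2 hv) h4) c
    rw [mul_comm, ← hc, ← map_smul, ← tv_conj t (by rw [map_smul, h0, smul_zero])] at h5
    simpa [mul_assoc] using hK γ hγ _ h5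
  have hfin := relIndex_of_lvl A hn (Finset.prod_pos fun p _ => hm p) hC hl
  have hle : C ≤ K := fun x hx => by simpa using hx 1 (GS D _).one_mem
  have h4 : K.relIndex (GS D (lat O b)) ≠ 0 := fun h =>
    hfin (Subgroup.relIndex_eq_zero_of_le_left hle h)
  have h5 : K.relIndex (GS D L) ≠ 0 :=
    Subgroup.relIndex_ne_zero_trans h4 (U.UL_relIndex (lat_fg A b) (lat_full A b) hL hL')
  exact fun h => h5 (Subgroup.relIndex_eq_zero_of_le_right hΓ h)

end Pool.Agent.P.MP_d483fb_an.L
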